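import Pool.Agent.Helper2.NNQ.Stm

/-!
# The two families of `MP_a70bdc_nt` are good on short intervals (statement `S_FAM2`)
-/

set_option autoImplicit false

open MeasureTheory Filter Topology Finset
open scoped Real

namespace Pool.Agent.Helper98.NNQ

open Pool.Agent.Helper2.NNQ

lemma log_diff_le {a b : ℝ} (ha : 0 < a) (hb : 0 < b) : Real.log b - Real.log a ≤ (b - a) / a := by
  rw [← Real.log_div hb.ne' ha.ne']
  have h := Real.log_le_sub_one_of_pos (div_pos hb ha)
  calc Real.log (b / a) ≤ b / a - 1 := h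
    _ = (b - a) / a := by field_simp

lemma le_log_diff {a b : ℝ} (ha : 0 < a) (hb : 0 < b) : (b - a) / b ≤ Real.log b - Real.log a := by
  have h := log_diff_le hb ha
  have e : (a - b) / b = -((b - a) / b) := by ring
  rw [e] at h
  linarith

theorem goodA {u r : ℝ} (hr : 0 < r) (hr1 : r < 1) :
    Good gA (fun _ => 2 / 3) (u - r) (u + r) := by
  refine ⟨by linarith, ⌈4 * (|u| + 1)⌉₊ + 3, by omega, ?_, ?_⟩
  · intro n hn
    have hn1 : 4 * (|u| + 1) ≤ (n : ℝ) := by
      have h1 := Nat.le_ceil (4 * (|u| + 1))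
      have h2 : ((⌈4 * (|u| + 1)⌉₊ : ℕ) : ℝ) ≤ (n : ℝ) := by exact_mod_cast (by omega)
      linarith
    have hn3 : (3 : ℝ) ≤ n := by exact_mod_cast (by omega : 3 ≤ n)
    have hu0 := abs_nonneg u
    have hx1 : ∀ x, u - r ≤ x → -(|u| + 1) ≤ x := by
      intro x hx
      have := neg_abs_le u
      linarith
    have hx2 : ∀ x, x ≤ u + r → x ≤ |u| + 1 := by
      intro x hx
      have := le_abs_self u
      linarith
    refine ⟨⟨by norm_num, ?_, ?_⟩, by norm_num, ?_⟩
    · intro x y hx hxy hy
      have h1 := hx1 x hx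
      have h2 := hx2 y hy
      have h3 := hx1 y (hx.trans hxy)
      have hpx : 0 < (n : ℝ) + x := by linarith
      have hpy : 0 < (n : ℝ) + y := by linarith
      have h4 := le_log_diff hpx hpy
      unfold gA
      have h5 : 2 / 3 * (y - x) ≤ (n : ℝ) * ((((n : ℝ) + y) - (n + x)) / (n + y)) := by
        rw [mul_div_assoc', le_div_iff₀ hpy]
        nlinarith
      have h6 : (n : ℝ) * ((((n : ℝ) + y) - (n + x)) / (n + y)) ≤
          n * (Real.log (n + y) - Real.log (n + x)) :=
        mul_le_mul_of_nonneg_left h4 (by linarith)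
      linarith
    · intro x y hx hxy hy
      have h1 := hx1 x hx
      have h2 := hx2 y hy
      have h3 := hx1 y (hx.trans hxy)
      have hpx : 0 < (n : ℝ) + x := by linarith
      have hpy : 0 < (n : ℝ) + y := by linarith
      have h4 := log_diff_le hpx hpy
      unfold gA
      have h5 : (n : ℝ) * ((((n : ℝ) + y) - (n + x)) / (n + x)) ≤ 2 * (2 / 3) * (y - x) := by
        rw [mul_div_assoc', div_le_iff₀ hpx]
        nlinarith
      have h6 : n * (Real.log (n + y) - Real.log (n + x)) ≤
          (n : ℝ) * ((((n : ℝ) + y) - (n + x)) / (n + x)) :=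
        mul_le_mul_of_nonneg_left h4 (by linarith)
      linarith
    · rintro x ⟨hx, hx'⟩
      have h1 := hx1 x hx
      have h2 := hx2 x hx'
      have hpx : 0 < (n : ℝ) + x := by linarith
      have hn0 : (0 : ℝ) < n := by linarith
      unfold gA
      constructor
      · have h3 : Real.log n ≤ 2 * Real.log (n + x) := by
          rw [← Real.log_rpow hpx]
          refine Real.log_le_log hn0 ?_
          rw [Real.rpow_two]
          nlinarith
        nlinarith
      · have h3 : Real.log (n + x) ≤ 2 * Real.log n := by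
          rw [← Real.log_rpow hn0]
          refine Real.log_le_log hpx ?_
          rw [Real.rpow_two]
          nlinarith
        nlinarith
  · intro m n hm hmn
    have hm1 : 4 * (|u| + 1) ≤ (m : ℝ) := by
      have h1 := Nat.le_ceil (4 * (|u| + 1))
      have h2 : ((⌈4 * (|u| + 1)⌉₊ : ℕ) : ℝ) ≤ (m : ℝ) := by exact_mod_cast (by omega)
      linarith
    have hm3 : (3 : ℝ) ≤ m := by exact_mod_cast (by omega : 3 ≤ m)
    have hmn' : (m : ℝ) < n := by exact_mod_cast hmn
    have hu0 := abs_nonneg u
    refine ⟨by norm_num, ?_⟩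
    rintro x ⟨hx, hx'⟩
    have h1 : -(|u| + 1) ≤ x := by
      have := neg_abs_le u
      linarith
    have h2 : x ≤ |u| + 1 := by
      have := le_abs_self u
      linarith
    have hpm : 0 < (m : ℝ) + x := by linarith
    have hpn : 0 < (n : ℝ) + x := by linarith
    have hn0 : (0 : ℝ) < n := by linarith
    have h3 : Real.log n ≤ 2 * Real.log (n + x) := by
      rw [← Real.log_rpow hpn]
      refine Real.log_le_log hn0 ?_
      rw [Real.rpow_two]
      nlinarith
    have h4 : Real.log (m + x) ≤ Real.log (n + x) := Real.log_le_log hpm (by linarith)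
    unfold gA
    have h5 : 0 ≤ (m : ℝ) * (Real.log (n + x) - Real.log (m + x)) :=
      mul_nonneg (by linarith) (by linarith)
    have h6 : ((n : ℝ) - m) * Real.log n ≤ ((n : ℝ) - m) * (2 * Real.log (n + x)) :=
      mul_le_mul_of_nonneg_left h3 (by linarith)
    nlinarith

theorem goodB {u r : ℝ} (hr : 0 < r) (hr1 : r < 1) :
    Good gB (fun n => Real.log n) (u - r) (u + r) := by
  refine ⟨by linarith, ⌈4 * (|u| + 1)⌉₊ + 3, by omega, ?_, ?_⟩
  · intro n hn
    have hn1 : 4 * (|u| + 1) ≤ (n : ℝ) := by
      have h1 := Nat.le_ceil (4 * (|u| + 1))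
      have h2 : ((⌈4 * (|u| + 1)⌉₊ : ℕ) : ℝ) ≤ (n : ℝ) := by exact_mod_cast (by omega)
      linarith
    have hn3 : (3 : ℝ) ≤ n := by exact_mod_cast (by omega : 3 ≤ n)
    have hu0 := abs_nonneg u
    have hlog : 1 / 2 ≤ Real.log n := by
      have h1 : Real.log 2 ≤ Real.log n := Real.log_le_log (by norm_num) (by linarith)
      have h2 := Real.log_two_gt_d9
      linarith
    refine ⟨⟨by linarith, ?_, ?_⟩, hlog, ?_⟩
    · intro x y hx hxy hy
      unfold gB
      nlinarith
    · intro x y hx hxy hy
      unfold gB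
      have : 0 ≤ Real.log n * (y - x) := mul_nonneg (by linarith) (by linarith)
      nlinarith
    · rintro x ⟨hx, hx'⟩
      have h1 : -(|u| + 1) ≤ x := by
        have := neg_abs_le u
        linarith
      have h2 : x ≤ |u| + 1 := by
        have := le_abs_self u
        linarith
      unfold gB
      constructor
      · have h3 : 1 / 2 * (n : ℝ) * Real.log n ≤ ((n : ℝ) + x) * Real.log n :=
          mul_le_mul_of_nonneg_right (by linarith) (by linarith)
        linarith
      · have h3 : ((n : ℝ) + x) * Real.log n ≤ 2 * (n : ℝ) * Real.log n :=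
          mul_le_mul_of_nonneg_right (by linarith) (by linarith)
        linarith
  · intro m n hm hmn
    have hm1 : 4 * (|u| + 1) ≤ (m : ℝ) := by
      have h1 := Nat.le_ceil (4 * (|u| + 1))
      have h2 : ((⌈4 * (|u| + 1)⌉₊ : ℕ) : ℝ) ≤ (m : ℝ) := by exact_mod_cast (by omega)
      linarith
    have hm3 : (3 : ℝ) ≤ m := by exact_mod_cast (by omega : 3 ≤ m)
    have hmn' : (m : ℝ) < n := by exact_mod_cast hmn
    have hu0 := abs_nonneg u
    have hlm : Real.log m ≤ Real.log n := Real.log_le_log (by linarith) hmn'.le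
    have hlm0 : 0 ≤ Real.log m := Real.log_nonneg (by linarith)
    refine ⟨by show Real.log m ≤ 2 * Real.log n; linarith, ?_⟩
    rintro x ⟨hx, hx'⟩
    have h1 : -(|u| + 1) ≤ x := by
      have := neg_abs_le u
      linarith
    have hpm : 0 < (m : ℝ) + x := by linarith
    unfold gB
    have h3 : ((m : ℝ) + x) * Real.log m ≤ (m + x) * Real.log n :=
      mul_le_mul_of_nonneg_left hlm hpm.le
    have h4 : 0 ≤ ((n : ℝ) - m) * Real.log n := mul_nonneg (by linarith) (by linarith)
    nlinarith

theorem t_FAM2 : S_FAM2 := fun _ => ⟨1, one_pos, fun _ hr hr1 => ⟨goodA hr hr1, goodB hr hr1⟩⟩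

end Pool.Agent.Helper98.NNQ
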